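import Pool.Agent.Helper19.SQ.GoalsS

/-!
Project SQ (MP_bb32d1_al), goal PI: the relations of `u_q(gl)` hold in `Usl`.
-/

namespace Pool.Agent.Helper49.SQ

open Pool.Agent.Helper19.SQ

noncomputable section

/-! ### products of powers of commuting elements -/

section Pw

variable {B : Type*} [Ring B] [Algebra ℂ B]

/-- `prod_{i<n} K_i ^ e_i`. -/
def Pw (K : ℕ → B) (e : ℕ → ℕ) (n : ℕ) : B := ((List.range n).map fun i => K i ^ e i).prod

theorem Pw_zero (K : ℕ → B) (e : ℕ → ℕ) : Pw K e 0 = 1 := rfl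

theorem Pw_succ (K : ℕ → B) (e : ℕ → ℕ) (n : ℕ) : Pw K e (n + 1) = Pw K e n * K n ^ e n := by
  simp [Pw, List.range_succ]

theorem Pw_comm (K : ℕ → B) (hK : ∀ i j, Commute (K i) (K j)) (e : ℕ → ℕ) (n : ℕ) (x : B)
    (hx : ∀ i, Commute (K i) x) : Commute (Pw K e n) x := by
  induction n with
  | zero => exact Commute.one_left x
  | succ n ih =>
    rw [Pw_succ]
    exact ih.mul_left ((hx n).pow_left _)

theorem Pw_Pw (K : ℕ → B) (hK : ∀ i j, Commute (K i) (K j)) (e e' : ℕ → ℕ) (n : ℕ) (m : ℕ) :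
    Commute (Pw K e n) (Pw K e' m) :=
  Pw_comm K hK e n _ fun i => (Pw_comm K hK e' m (K i) fun j => hK j i).symm

theorem Pw_add (K : ℕ → B) (hK : ∀ i j, Commute (K i) (K j)) (e e' : ℕ → ℕ) (n : ℕ) :
    Pw K e n * Pw K e' n = Pw K (fun i => e i + e' i) n := by
  induction n with
  | zero => simp [Pw_zero]
  | succ n ih =>
    rw [Pw_succ, Pw_succ, Pw_succ, ← ih, pow_add]
    have h : Commute (K n ^ e n) (Pw K e' n) :=
      ((Pw_comm K hK e' n (K n) fun j => hK j n).symm).pow_left _
    rw [mul_assoc, ← mul_assoc (K n ^ e n), h.eq, mul_assoc, mul_assoc]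

theorem Pw_pow (K : ℕ → B) (hK : ∀ i j, Commute (K i) (K j)) (e : ℕ → ℕ) (n m : ℕ) :
    Pw K e n ^ m = Pw K (fun i => m * e i) n := by
  induction m with
  | zero =>
    rw [pow_zero]
    induction n with
    | zero => rfl
    | succ n ih => rw [Pw_succ, ← ih]; simp
  | succ m ih =>
    rw [pow_succ, ih, Pw_add K hK]
    congr 1
    funext i
    ring

theorem Pw_congr (K : ℕ → B) (l : ℕ) (e e' : ℕ → ℕ) (n : ℕ) (hl : ∀ i, K i ^ l = 1)
    (h : ∀ i, i < n → e i % l = e' i % l) : Pw K e n = Pw K e' n := by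
  induction n with
  | zero => rfl
  | succ n ih =>
    rw [Pw_succ, Pw_succ, ih fun i hi => h i (hi.trans n.lt_succ_self),
      pow_eq_pow_mod (e n) (hl n), pow_eq_pow_mod (e' n) (hl n), h n n.lt_succ_self]

theorem Pw_single (K : ℕ → B) (j n : ℕ) :
    Pw K (fun i => if i = j then 1 else 0) n = if j < n then K j else 1 := by
  induction n with
  | zero => rfl
  | succ n ih =>
    rw [Pw_succ, ih]
    by_cases h : n = j
    · subst h
      simp
    · by_cases h2 : j < n
      · rw [if_pos h2, if_neg h, if_pos (h2.trans n.lt_succ_self), pow_zero, mul_one]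
      · rw [if_neg h2, if_neg h, if_neg (by omega), pow_zero, mul_one]

theorem pow_skew (q : ℂ) (hq : q ≠ 0) (x y : B) (c : ℤ) (h : x * y = q ^ c • (y * x)) (m : ℕ) :
    x ^ m * y = q ^ ((m : ℤ) * c) • (y * x ^ m) := by
  induction m with
  | zero => simp
  | succ m ih =>
    rw [pow_succ, mul_assoc, h, mul_smul_comm, ← mul_assoc, ih, smul_mul_assoc, smul_smul,
      mul_assoc, ← zpow_add₀ hq]
    congr 2
    push_cast
    ring

theorem Pw_skew (q : ℂ) (hq : q ≠ 0) (K : ℕ → B) (e : ℕ → ℕ) (n : ℕ) (y : B) (c : ℕ → ℤ)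
    (h : ∀ i, i < n → K i * y = q ^ c i • (y * K i)) :
    Pw K e n * y = q ^ (∑ i ∈ Finset.range n, (e i : ℤ) * c i) • (y * Pw K e n) := by
  induction n with
  | zero => simp [Pw_zero]
  | succ n ih =>
    rw [Pw_succ, mul_assoc, pow_skew q hq (K n) y (c n) (h n n.lt_succ_self), mul_smul_comm,
      ← mul_assoc, ih fun i hi => h i (hi.trans n.lt_succ_self), smul_mul_assoc, smul_smul,
      ← zpow_add₀ hq, Finset.sum_range_succ, mul_assoc, add_comm]

end Pw

/-! ### the integers -/

/-- the Cartan matrix as a function on `ℕ`. -/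
def cn (i k : ℕ) : ℤ := if i = k then 2 else if i + 1 = k ∨ k + 1 = i then -1 else 0

theorem cn_eq (i k : ℕ) :
    cn i k = 2 * (if i = k then 1 else 0) - (if i + 1 = k then 1 else 0)
      - (if i = k + 1 then 1 else 0) := by
  unfold cn
  split_ifs <;> omega

theorem sum_cn (f : ℕ → ℤ) (N k : ℕ) (hk : k < N) :
    ∑ i ∈ Finset.range N, f i * cn i k
      = 2 * f k - (if k = 0 then 0 else f (k - 1)) - (if k + 1 < N then f (k + 1) else 0) := by
  have e : ∀ i, f i * cn i k = 2 * (if i = k then f i else 0)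
      - (if i = k - 1 then (if k = 0 then 0 else f i) else 0)
      - (if i = k + 1 then f i else 0) := by
    intro i
    rw [cn_eq]
    by_cases h0 : k = 0
    · subst h0
      by_cases h1 : i = 0
      · subst h1; simp; ring
      · by_cases h2 : i = 0 + 1
        · subst h2; simp
        · simp [h1]
    · by_cases h1 : i = k
      · subst h1
        have : i ≠ i - 1 := by omega
        simp [this]
        ring
      · by_cases h2 : i + 1 = k
        · subst h2
          have h4 : ¬ i = i + 1 + 1 := by omega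
          simp [h4]
        · have h3 : ¬ i = k - 1 := by omega
          simp [h1, h2, h3]
  rw [Finset.sum_congr rfl fun i _ => e i]
  rw [Finset.sum_sub_distrib, Finset.sum_sub_distrib, ← Finset.mul_sum]
  simp only [Finset.sum_ite_eq', Finset.mem_range]
  rw [if_pos hk, if_pos (by omega : k - 1 < N)]

/-- the exponents of `kappa_j`. -/
def ke (l n' j : ℕ) : ℕ → ℕ := fun i => (if j ≤ i then 1 else 0) + (l - 1) * n' * (i + 1)

theorem ke_cong (l n' j i : ℕ) (hl : 1 ≤ l) :
    ((ke l n' j i : ℕ) : ℤ) = ((if j ≤ i then 1 else 0) - n' * (i + 1)) + l * (n' * (i + 1)) := by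
  unfold ke
  push_cast [Nat.cast_sub hl]
  ring

theorem sum_ke (N l n' j k : ℕ) (hl : 1 ≤ l) (hn : (n' * (N + 1)) % l = 1) (hj : j ≤ N)
    (hk : k < N) :
    (l : ℤ) ∣ (∑ i ∈ Finset.range N, ((ke l n' j i : ℕ) : ℤ) * cn i k) - pr j k := by
  have hd : (l : ℤ) ∣ (n' * (N + 1) : ℤ) - 1 := by
    have h1 : (l : ℤ) ∣ ((n' * (N + 1) : ℕ) : ℤ) - ((n' * (N + 1) % l : ℕ) : ℤ) := by
      rw [Int.natCast_mod]
      exact Int.dvd_self_sub_emod
    rw [hn] at h1
    simpa using h1
  have e1 : ∑ i ∈ Finset.range N, ((ke l n' j i : ℕ) : ℤ) * cn i k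
      = (∑ i ∈ Finset.range N, ((if j ≤ i then 1 else 0) - n' * (i + 1) : ℤ) * cn i k)
        + l * ∑ i ∈ Finset.range N, (n' * (i + 1) : ℤ) * cn i k := by
    rw [Finset.mul_sum, ← Finset.sum_add_distrib]
    refine Finset.sum_congr rfl fun i _ => ?_
    rw [ke_cong l n' j i hl]
    ring
  rw [e1, sum_cn (fun i => ((if j ≤ i then 1 else 0) - n' * (i + 1) : ℤ)) N k hk]
  have e2 : (if k = 0 then (0 : ℤ) else ((if j ≤ k - 1 then 1 else 0)
      - (n' : ℤ) * (((k - 1 : ℕ) : ℤ) + 1))) = (if j + 1 ≤ k then 1 else 0) - n' * k := by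
    by_cases h0 : k = 0
    · subst h0
      simp
    · rw [if_neg h0]
      have h1 : (((k - 1 : ℕ) : ℤ) + 1) = k := by omega
      rw [h1]
      congr 1
      by_cases h2 : j + 1 ≤ k
      · rw [if_pos h2, if_pos (by omega)]
      · rw [if_neg h2, if_neg (by omega)]
  have e3 : ∃ δ : ℤ, (l : ℤ) ∣ δ ∧ (if k + 1 < N then ((if j ≤ k + 1 then 1 else 0)
      - (n' : ℤ) * (((k + 1 : ℕ) : ℤ) + 1)) else 0)
      = (if j ≤ k + 1 then 1 else 0) - n' * (k + 2) + δ := by
    by_cases h0 : k + 1 < N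
    · refine ⟨0, dvd_zero _, ?_⟩
      rw [if_pos h0]
      push_cast
      ring
    · refine ⟨n' * (N + 1) - 1, hd, ?_⟩
      rw [if_neg h0, if_pos (by omega : j ≤ k + 1)]
      have : (N : ℤ) = k + 1 := by omega
      rw [this]
      ring
  obtain ⟨δ, hδ, e3⟩ := e3
  rw [e2, e3]
  have e4 : 2 * ((if j ≤ k then 1 else 0) - (n' : ℤ) * (k + 1))
      - ((if j + 1 ≤ k then 1 else 0) - n' * k)
      - ((if j ≤ k + 1 then 1 else 0) - n' * (k + 2) + δ)
      + l * (∑ i ∈ Finset.range N, (n' * (i + 1) : ℤ) * cn i k) - pr j k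
      = l * (∑ i ∈ Finset.range N, (n' * (i + 1) : ℤ) * cn i k) - δ := by
    have e5 : 2 * (if j ≤ k then (1 : ℤ) else 0) - (if j + 1 ≤ k then 1 else 0)
        - (if j ≤ k + 1 then 1 else 0) - pr j k = 0 := by
      unfold pr
      split_ifs <;> omega
    linear_combination e5
  rw [e4]
  exact dvd_sub (dvd_mul_right _ _) hδ

theorem zpow_cong {q : ℂ} {l : ℕ} (hq : IsPrimitiveRoot q l) (h0 : q ≠ 0) {a b : ℤ}
    (h : (l : ℤ) ∣ a - b) : q ^ a = q ^ b := by
  have h1 : q ^ (a - b) = 1 := (hq.zpow_eq_one_iff_dvd _).mpr h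
  rw [zpow_sub₀ h0, div_eq_one_iff_eq (zpow_ne_zero _ h0)] at h1
  exact h1

/-! ### the elements `kappa_j` -/

variable {N l : ℕ} {q : ℂ}

/-- `K_i`, extended by one. -/
def xK (N l : ℕ) (q : ℂ) : ℕ → Usl N l q := fun i => kap.ext1 (uK N l q) i

theorem xK_of {i : ℕ} (h : i < N) : xK N l q i = uK N l q ⟨i, h⟩ := dif_pos h

theorem xK_comm (i j : ℕ) : Commute (xK N l q i) (xK N l q j) := by
  by_cases hi : i < N
  · by_cases hj : j < N
    · rw [xK_of hi, xK_of hj]
      exact (slU N l q).K_comm _ _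
    · have : xK N l q j = 1 := dif_neg hj
      rw [this]
      exact Commute.one_right _
  · have : xK N l q i = 1 := dif_neg hi
    rw [this]
    exact Commute.one_left _

theorem xK_pow (i : ℕ) : xK N l q i ^ l = 1 := by
  by_cases hi : i < N
  · rw [xK_of hi]
    exact (slU N l q).K_pow _
  · have : xK N l q i = 1 := dif_neg hi
    rw [this, one_pow]

theorem kap_eq {n' j : ℕ} (h : j ≤ N) : kap N l q n' j = Pw (xK N l q) (ke l n' j) N := if_pos h

theorem kap_out {n' j : ℕ} (h : ¬ j ≤ N) : kap N l q n' j = 1 := if_neg h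

theorem kap_comm (n' i j : ℕ) : kap N l q n' i * kap N l q n' j
    = kap N l q n' j * kap N l q n' i := by
  by_cases hi : i ≤ N
  · by_cases hj : j ≤ N
    · rw [kap_eq hi, kap_eq hj]
      exact Pw_Pw _ xK_comm _ _ _ _
    · rw [kap_out hj, mul_one, one_mul]
  · rw [kap_out hi, mul_one, one_mul]

theorem kap_pow (n' j : ℕ) : kap N l q n' j ^ l = 1 := by
  by_cases hj : j ≤ N
  · rw [kap_eq hj, Pw_pow _ xK_comm]
    have h : Pw (xK N l q) (fun i => l * ke l n' j i) N = Pw (xK N l q) (fun _ => 0) N :=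
      Pw_congr _ l _ _ N xK_pow fun i _ => by simp
    rw [h]
    have := Pw_pow (xK N l q) xK_comm (fun _ => 0) N 0
    simpa using this.symm
  · rw [kap_out hj, one_pow]

theorem kap_quot (hl : 1 < l) (n' j : ℕ) (hj : j < N) :
    kap N l q n' j * kap N l q n' (j + 1) ^ (l - 1) = xK N l q j := by
  rw [kap_eq hj.le, kap_eq (Nat.succ_le_of_lt hj), Pw_pow _ xK_comm, Pw_add _ xK_comm]
  have h : Pw (xK N l q) (fun i => ke l n' j i + (l - 1) * ke l n' (j + 1) i) N
      = Pw (xK N l q) (fun i => if i = j then 1 else 0) N := by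
    refine Pw_congr _ l _ _ N xK_pow fun i _ => ?_
    obtain ⟨m, rfl⟩ : ∃ m, l = m + 1 := ⟨l - 1, by omega⟩
    have e : ke (m + 1) n' j i + (m + 1 - 1) * ke (m + 1) n' (j + 1) i
        = (if i = j then 1 else 0) + (m + 1) * ((if j + 1 ≤ i then 1 else 0)
          + m * n' * (i + 1)) := by
      unfold ke
      rw [Nat.add_sub_cancel]
      rcases lt_trichotomy i j with h | h | h
      · rw [if_neg (by omega), if_neg (by omega), if_neg (by omega)]
        ring
      · subst h
        rw [if_pos le_rfl, if_neg (by omega), if_pos rfl]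
        ring
      · rw [if_pos (by omega), if_pos (by omega), if_neg (by omega)]
        ring
    rw [e, Nat.add_mul_mod_self_left]
  rw [h, Pw_single, if_pos hj]

theorem kap_quot' (hl : 1 < l) (n' j : ℕ) (hj : j < N) :
    kap N l q n' j ^ (l - 1) * kap N l q n' (j + 1) = xK N l q j ^ (l - 1) := by
  rw [← kap_quot hl n' j hj]
  have hc : Commute (kap N l q n' j) (kap N l q n' (j + 1) ^ (l - 1)) :=
    Commute.pow_right (kap_comm n' j (j + 1)) _
  rw [hc.mul_pow]
  congr 1
  rw [← pow_mul]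
  obtain ⟨m, rfl⟩ : ∃ m, l = m + 2 := ⟨l - 2, by omega⟩
  have e : (m + 2 - 1) * (m + 2 - 1) = (m + 2) * m + 1 := by
    rw [show m + 2 - 1 = m + 1 by omega]
    ring
  rw [e, pow_succ, pow_mul, kap_pow, one_pow, one_mul]

theorem cart_cn (i k : Fin N) : cart i k = cn i k := by
  unfold cart cn
  simp only [Fin.ext_iff]

theorem kap_E (hq : Par N l q) (n' j : ℕ) (hn : (n' * (N + 1)) % l = 1) (i : ℕ) :
    kap N l q n' j * ext0 (uE N l q) i
      = q ^ pr j i • (ext0 (uE N l q) i * kap N l q n' j) := by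
  have h0 : q ≠ 0 := hq.prim.ne_zero (by have := hq.h3; omega)
  by_cases hi : i < N
  · have hE : ext0 (uE N l q) i = uE N l q ⟨i, hi⟩ := dif_pos hi
    rw [hE]
    by_cases hj : j ≤ N
    · rw [kap_eq hj]
      rw [Pw_skew q h0 (xK N l q) (ke l n' j) N (uE N l q ⟨i, hi⟩) (fun k => cn k i)
        fun k hk => by
          rw [xK_of hk, (slU N l q).KE, cart_cn]]
      rw [zpow_cong hq.prim h0 (sum_ke N l n' j i (by have := hq.h3; omega) hn hj hi)]
    · rw [kap_out hj]
      have : pr j i = 0 := by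
        unfold pr
        rw [if_neg (by omega), if_neg (by omega)]
      rw [this, zpow_zero, one_smul, one_mul, mul_one]
  · have hE : ext0 (uE N l q) i = 0 := dif_neg hi
    rw [hE, mul_zero, zero_mul, smul_zero]

theorem kap_F (hq : Par N l q) (n' j : ℕ) (hn : (n' * (N + 1)) % l = 1) (i : ℕ) :
    kap N l q n' j * ext0 (uF N l q) i
      = q ^ (- pr j i) • (ext0 (uF N l q) i * kap N l q n' j) := by
  have h0 : q ≠ 0 := hq.prim.ne_zero (by have := hq.h3; omega)
  by_cases hi : i < N
  · have hE : ext0 (uF N l q) i = uF N l q ⟨i, hi⟩ := dif_pos hi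
    rw [hE]
    by_cases hj : j ≤ N
    · rw [kap_eq hj]
      rw [Pw_skew q h0 (xK N l q) (ke l n' j) N (uF N l q ⟨i, hi⟩) (fun k => - cn k i)
        fun k hk => by
          rw [xK_of hk, (slU N l q).KF, cart_cn]]
      congr 1
      refine zpow_cong hq.prim h0 ?_
      have h := sum_ke N l n' j i (by have := hq.h3; omega) hn hj hi
      have e : (∑ k ∈ Finset.range N, ((ke l n' j k : ℕ) : ℤ) * (- cn k i)) - (- pr j i)
          = - ((∑ k ∈ Finset.range N, ((ke l n' j k : ℕ) : ℤ) * cn k i) - pr j i) := by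
        simp only [mul_neg, Finset.sum_neg_distrib]
        ring
      rw [e]
      exact h.neg_right
    · rw [kap_out hj]
      have : pr j i = 0 := by
        unfold pr
        rw [if_neg (by omega), if_neg (by omega)]
      rw [this, neg_zero, zpow_zero, one_smul, one_mul, mul_one]
  · have hE : ext0 (uF N l q) i = 0 := dif_neg hi
    rw [hE, mul_zero, zero_mul, smul_zero]

/-! ### the root vectors -/

section Ext

variable {B : Type*} [Ring B] [Algebra ℂ B]

theorem rvA_out (q : ℂ) (E : ℕ → B) (N : ℕ) (hE : ∀ i, N ≤ i → E i = 0) (d i : ℕ)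
    (h : N ≤ i + d) : rvA q E d i = 0 := by
  induction d generalizing i with
  | zero => exact hE i (by simpa using h)
  | succ d ih =>
    rw [rvA, ih (i + 1) (by omega), mul_zero, zero_mul, smul_zero, sub_zero]

theorem ext_pow (q : ℂ) (N l : ℕ) (hl : l ≠ 0) (E : ℕ → B) (hE : ∀ i, N ≤ i → E i = 0)
    (hp : ∀ i j, i < j → j ≤ N → rv q E i j ^ l = 0) (d i : ℕ) : rvA q E d i ^ l = 0 := by
  by_cases h : i + d + 1 ≤ N
  · have := hp i (i + d + 1) (by omega) h
    unfold rv at this
    rwa [show i + d + 1 - i - 1 = d by omega] at this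
  · rw [rvA_out q E N hE d i (by omega), zero_pow hl]

theorem ext_serre (q : ℂ) (N : ℕ) (E : Fin N → B)
    (far : ∀ i j, cart i j = 0 → E i * E j = E j * E i)
    (serre : ∀ i j, cart i j = -1 →
      E i ^ 2 * E j - (q + q⁻¹) • (E i * E j * E i) + E j * E i ^ 2 = 0) :
    SerreRel q (ext0 E) where
  far i j hij := by
    by_cases hj : j < N
    · have hi : i < N := by omega
      rw [show ext0 E i = E ⟨i, hi⟩ from dif_pos hi, show ext0 E j = E ⟨j, hj⟩ from dif_pos hj]
      refine far _ _ ?_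
      unfold cart
      rw [if_neg (by simp only [Fin.ext_iff]; omega), if_neg (by simp only []; omega)]
    · rw [show ext0 E j = 0 from dif_neg hj, mul_zero, zero_mul]
  s1 i := by
    by_cases hj : i + 1 < N
    · have hi : i < N := by omega
      rw [show ext0 E i = E ⟨i, hi⟩ from dif_pos hi,
        show ext0 E (i + 1) = E ⟨i + 1, hj⟩ from dif_pos hj]
      refine serre _ _ ?_
      unfold cart
      rw [if_neg (by simp only [Fin.ext_iff]; omega), if_pos (by simp)]
    · rw [show ext0 E (i + 1) = 0 from dif_neg hj]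
      simp
  s2 i := by
    by_cases hj : i + 1 < N
    · have hi : i < N := by omega
      rw [show ext0 E i = E ⟨i, hi⟩ from dif_pos hi,
        show ext0 E (i + 1) = E ⟨i + 1, hj⟩ from dif_pos hj]
      refine serre _ _ ?_
      unfold cart
      rw [if_neg (by simp only [Fin.ext_iff]; omega), if_pos (by simp)]
    · rw [show ext0 E (i + 1) = 0 from dif_neg hj]
      simp

end Ext

/-- **PI** -/
theorem s_pi : S_PI := by
  intro N l q hP n' hn
  have h3 := hP.h3
  have S := slU N l q
  have hEo : ∀ i, N ≤ i → ext0 (uE N l q) i = 0 := fun i hi => dif_neg (not_lt.mpr hi)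
  have hFo : ∀ i, N ≤ i → ext0 (uF N l q) i = 0 := fun i hi => dif_neg (not_lt.mpr hi)
  refine ⟨{ E_out := hEo
            F_out := hFo
            K_out := fun j hj => kap_out (not_le.mpr hj)
            K_comm := kap_comm n'
            K_pow := kap_pow n'
            KE := fun j i => kap_E hP n' j hn i
            KF := fun j i => kap_F hP n' j hn i
            EF := ?_
            EF_ne := ?_
            sE := ext_serre q N _ S.farE S.serreE
            sF := ext_serre q N _ S.farF S.serreF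
            pE := ext_pow q N l (by omega) _ hEo S.powE
            pF := ext_pow q N l (by omega) _ hFo S.powF }, ?_⟩
  · intro i hi
    rw [kap_quot (by omega) n' i hi, kap_quot' (by omega) n' i hi, xK_of hi,
      show ext0 (uE N l q) i = uE N l q ⟨i, hi⟩ from dif_pos hi,
      show ext0 (uF N l q) i = uF N l q ⟨i, hi⟩ from dif_pos hi]
    exact S.EF _
  · intro i j hij
    by_cases hi : i < N
    · by_cases hj : j < N
      · rw [show ext0 (uE N l q) i = uE N l q ⟨i, hi⟩ from dif_pos hi,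
          show ext0 (uF N l q) j = uF N l q ⟨j, hj⟩ from dif_pos hj]
        exact S.EF_ne _ _ fun h => hij (Fin.ext_iff.mp h)
      · rw [hFo j (not_lt.mp hj), mul_zero, zero_mul]
    · rw [hEo i (not_lt.mp hi), mul_zero, zero_mul]
  · intro j
    rw [kap_quot (by omega) n' j j.2, xK_of j.2]

end

end Pool.Agent.Helper49.SQ
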