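import Pool.Agent.Helper4.SQ.GoalsR

/-!
Project SQ (MP_bb32d1_al), stage B, part Q: `S_CREC`.
-/

set_option autoImplicit false
set_option linter.unusedSectionVars false

namespace Pool.Agent.Helper49.SQ

noncomputable section

open Matrix Pool.Agent.Helper19.SQ Pool.Agent.Helper34.SQ Pool.Agent.Helper41.SQ
  Pool.Agent.Helper4.SQ

variable {A : Type} [Ring A] [Algebra ℂ A] {ι : Type} [Fintype ι] [DecidableEq ι]

theorem sc_entry {κ : Type} (M : Matrix κ κ ℂ) (x y : κ) :
    sc A M x y = algebraMap ℂ A (M x y) := rfl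

theorem qt_Phi (w : ι → ℂ) (f : A →ₐ[ℂ] Matrix ι ι A) (M : Matrix ι ι A) :
    qt w (Phi f M) = f (∑ s, w s • M s s) := by
  ext a b
  rw [qt, Matrix.of_apply, map_sum, Matrix.sum_apply]
  refine Finset.sum_congr rfl fun p _ => ?_
  rw [map_smul, Matrix.smul_apply, Phi_apply]

theorem bd_Phi_comm (f : A →ₐ[ℂ] Matrix ι ι A) (X M : Matrix ι ι A)
    (h : ∀ a, X * f a = f a * X) : bd X * Phi f M = Phi f M * bd X := by
  ext x y
  have h1 : (bd X * Phi f M) x y = (X * f (M x.1 y.1)) x.2 y.2 := by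
    rw [Matrix.mul_apply, Fintype.sum_prod_type, Matrix.mul_apply, Finset.sum_eq_single x.1]
    · refine Finset.sum_congr rfl fun k _ => ?_
      rw [bd_apply, if_pos rfl, Phi_apply]
    · intro c _ hc
      refine Finset.sum_eq_zero fun k _ => ?_
      rw [bd_apply, if_neg (fun e => hc (Eq.symm e)), zero_mul]
    · intro h2
      exact absurd (Finset.mem_univ _) h2
  have h2 : (Phi f M * bd X) x y = (f (M x.1 y.1) * X) x.2 y.2 := by
    rw [Matrix.mul_apply, Fintype.sum_prod_type, Matrix.mul_apply, Finset.sum_eq_single y.1]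
    · refine Finset.sum_congr rfl fun k _ => ?_
      rw [bd_apply, if_pos rfl, Phi_apply]
    · intro c _ hc
      refine Finset.sum_eq_zero fun k _ => ?_
      rw [bd_apply, if_neg (fun e => hc e), mul_zero]
    · intro h2
      exact absurd (Finset.mem_univ _) h2
  rw [h1, h2, h]

theorem sCREC (hR : S_RPOW) (hQ : S_QTR) : S_CREC := by
  intro A _ _ ι _ _ C q P k hk
  obtain ⟨q1, q2, q3, q4, q5, q6⟩ := hQ A ι C q P
  set r : Matrix (ι × ι) (ι × ι) A := sc A P.Sc with hr
  have hrr : r * r = 1 + P.ω • r := by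
    rw [hr, sc_mul, P.ScSc]
    ext x y
    rw [sc_entry, Matrix.add_apply, Matrix.add_apply, Matrix.smul_apply, Matrix.smul_apply,
      sc_entry, map_add, smul_eq_mul, map_mul, ← Algebra.smul_def, Matrix.one_apply,
      Matrix.one_apply]
    congr 1
    split
    · exact map_one _
    · exact map_zero _
  have hb : Phi C.δ C.X = r * bd C.X * r := P.ScX
  have hab : bd C.X * (r * bd C.X * r) = (r * bd C.X * r) * bd C.X := by
    rw [← hb]
    exact bd_Phi_comm C.δ C.X C.X C.Xδ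
  have hpow := hR (Matrix (ι × ι) (ι × ι) A) r (bd C.X) P.ω hrr hab k hk
  rw [← hb] at hpow
  have hqs : ∀ (s : Finset ℕ) (F : ℕ → Matrix (ι × ι) (ι × ι) A),
      qt C.w (∑ i ∈ s, F i) = ∑ i ∈ s, qt C.w (F i) := by
    intro s F
    have h0 : qt C.w (0 : Matrix (ι × ι) (ι × ι) A) = 0 := by
      have := q2 0 0
      simpa using this
    induction s using Finset.induction_on with
    | empty => simp [h0]
    | insert i s hi ih => rw [Finset.sum_insert hi, Finset.sum_insert hi, q1, ih]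
  have hcq : ∀ i, qt C.w (Phi C.δ C.X ^ i) = C.δ (cq C i) := by
    intro i
    rw [← map_pow, qt_Phi, cq]
  have h1 : qt C.w (r * bd C.X ^ k * r) =
      Matrix.diagonal (fun _ => cq C k) + (P.ω * q) • C.X ^ k := by
    have e1 : r * bd C.X ^ k * r = r * bd (C.X ^ k) * (r - P.ω • 1) + P.ω • (r * bd (C.X ^ k)) := by
      rw [← map_pow, mul_sub, mul_smul_comm, mul_one]
      simp
    rw [e1, q1, q6, q2, q3, q5, smul_mul_assoc, one_mul, smul_smul, cq]
  have h2 : ∀ i ∈ Finset.Ico 1 k, qt C.w (bd C.X ^ i * r * bd C.X ^ (k - i)) = q • C.X ^ k := by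
    intro i hi
    rw [Finset.mem_Ico] at hi
    rw [← map_pow, ← map_pow, q3, q4, q5, mul_smul_comm, mul_one, smul_mul_assoc, ← pow_add,
      Nat.add_sub_cancel' hi.2.le]
  have h3 : ∀ i, qt C.w (((k - i : ℕ) : ℂ) • (Phi C.δ C.X ^ i * bd C.X ^ (k - i))) =
      ((k - i : ℕ) : ℂ) • (C.δ (cq C i) * C.X ^ (k - i)) := by
    intro i
    rw [q2, ← map_pow bd, q3, hcq]
  have h4 := congrArg (qt C.w) hpow
  rw [hcq, q1, q1, q2, q2, hqs, hqs, h1, Finset.sum_congr rfl h2,
    Finset.sum_congr rfl fun i _ => h3 i, Finset.sum_const, Nat.card_Ico] at h4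
  rw [h4]
  congr 1
  rw [add_assoc]
  congr 1
  rw [← Nat.cast_smul_eq_nsmul ℂ, smul_smul, smul_smul, ← add_smul]
  congr 1
  rw [Nat.cast_sub hk]
  push_cast
  ring

end

end Pool.Agent.Helper49.SQ
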