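import Pool.Agent.Helper41.SQ.GoalsN

/-!
Project SQ (MP_bb32d1_al), stage B: the side `delta` (SDF).
-/

set_option autoImplicit false
set_option linter.unusedSectionVars false

namespace Pool.Agent.Helper49.SQN

noncomputable section

open Matrix Pool.Agent.Helper19.SQ Pool.Agent.Helper34.SQ Pool.Agent.Helper41.SQ

variable {A : Type} [Ring A] [Algebra ℂ A] {ι : Type} [Fintype ι] [DecidableEq ι]

theorem X2_pow_u (C : Core0 A ι) (P : CoreP C) (k : ℕ) (p i : ι) :
    (X2 C.ε C.X ^ k *ᵥ C.u) (p, i) =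
      ∑ s, (P.κ1 * (C.w s)⁻¹) • C.ε ((C.X ^ k) p s) i s := by
  rw [X2_eq, ← map_pow]
  rw [Matrix.mulVec, dotProduct, Fintype.sum_prod_type]
  refine Finset.sum_congr rfl fun s _ => ?_
  rw [Finset.sum_eq_single s]
  · rw [P.u_eq, Phi_apply]
    simp
  · intro t _ ht
    rw [P.u_eq, if_neg (fun h => ht (Eq.symm h)), mul_zero]
  · intro h
    exact absurd (Finset.mem_univ _) h

theorem z_eq (C : Core0 A ι) (P : CoreP C) (k : ℕ) (p i : ι) :
    (P.κ1⁻¹ * C.w i) • (X2 C.ε C.X ^ k *ᵥ C.u) (p, i) =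
      ∑ s, ((C.w s)⁻¹ * C.w i) • C.ε ((C.X ^ k) p s) i s := by
  rw [X2_pow_u C P, Finset.smul_sum]
  refine Finset.sum_congr rfl fun s _ => ?_
  rw [smul_smul]
  congr 1
  have h := P.κ1_ne
  field_simp

theorem zX_delta (C : Core0 A ι) (P : CoreP C) (k : ℕ) (p r : ι) :
    (C.X ^ k) p r =
      ∑ i, C.δ ((P.κ1⁻¹ * C.w i) • (X2 C.ε C.X ^ k *ᵥ C.u) (p, i)) i r := by
  have h1 : ∀ i, C.δ ((P.κ1⁻¹ * C.w i) • (X2 C.ε C.X ^ k *ᵥ C.u) (p, i)) i r =
      ∑ s, (C.w s)⁻¹ • (C.w i • C.δ (C.ε ((C.X ^ k) p s) i s) i r) := by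
    intro i
    rw [z_eq C P, map_sum, Matrix.sum_apply]
    refine Finset.sum_congr rfl fun s _ => ?_
    rw [map_smul, Matrix.smul_apply, smul_smul]
  simp only [h1]
  rw [Finset.sum_comm]
  have h2 : ∀ s, ∑ i, (C.w s)⁻¹ • (C.w i • C.δ (C.ε ((C.X ^ k) p s) i s) i r) =
      if r = s then (C.X ^ k) p r else 0 := by
    intro s
    rw [← Finset.smul_sum, C.cap1]
    by_cases h : r = s
    · subst h
      rw [if_pos rfl, if_pos rfl, smul_smul, inv_mul_cancel₀ (C.w_ne r), one_smul]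
    · rw [if_neg h, if_neg h, smul_zero]
  simp only [h2]
  rw [Finset.sum_ite_eq]
  simp

theorem n_sdf : Pool.Agent.Helper41.SQ.S_SDF := by
  intro A _ _ ι _ _ C P
  exact ⟨{ D := C.δ
           X := C.X
           R := P.Sc
           w := P.ω
           z := fun k p i => (P.κ1⁻¹ * C.w i) • (X2 C.ε C.X ^ k *ᵥ C.u) (p, i)
           w_ne := P.ω_ne
           XD := C.Xδ
           RD := P.ScD
           XX := P.ScX
           RR := P.ScSc
           br := P.br
           inv := P.inv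
           zX := fun k p r => zX_delta C P k p r }, rfl, rfl, rfl, rfl⟩

end

end Pool.Agent.Helper49.SQN
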