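import Pool.Agent.Helper4.SQ.GoalsL

/-!
Project SQ (MP_bb32d1_al), stage B, part L: `S_LF1`, the families of the currents.
-/

set_option autoImplicit false
set_option linter.unusedSectionVars false

namespace Pool.Agent.Helper49.SQ

noncomputable section

open Pool.Agent.Helper19.SQ Pool.Agent.Helper4.SQ

theorem lie_comm0 {L : Type} [LieRing L] {x y : L} (h : ⁅x, y⁆ = 0) : ⁅y, x⁆ = 0 := by
  rw [← lie_skew, h, neg_zero]

theorem lie_jac {L : Type} [LieRing L] {x y u : L} (hx : ⁅x, u⁆ = 0) (hy : ⁅y, u⁆ = 0) :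
    ⁅⁅x, y⁆, u⁆ = 0 := by
  rw [lie_lie, hx, hy, lie_zero, lie_zero, sub_zero]

section zm

variable {l : ℕ} [NeZero l]

theorem dvd_of_add (c : ZMod l) (n : ℕ) (h : c + (n : ZMod l) = 0) : l ∣ c.val + n := by
  rw [← ZMod.natCast_eq_zero_iff, Nat.cast_add, ZMod.natCast_zmod_val, h]

theorem val_lt_of_ne (c : ZMod l) (h : c ≠ -1) : c.val + 1 < l := by
  have h1 := ZMod.val_lt c
  rcases Nat.lt_or_ge (c.val + 1) l with h2 | h2
  · exact h2
  · exfalso
    apply h
    have h3 : c.val + 1 = l := by omega
    have h4 : ((c.val + 1 : ℕ) : ZMod l) = 0 := by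
      rw [h3, ZMod.natCast_self]
    rw [Nat.cast_add, ZMod.natCast_zmod_val, Nat.cast_one] at h4
    exact eq_neg_of_add_eq_zero_left h4

theorem ne_neg_one {c : ZMod l} (h : c.val + 1 < l) : c ≠ -1 := by
  intro h1
  have h2 := dvd_of_add c 1 (by rw [h1, Nat.cast_one, neg_add_cancel])
  have := Nat.le_of_dvd (by omega) h2
  omega

theorem val_pos_of_ne (c : ZMod l) (h : c ≠ 0) : 1 ≤ c.val := by
  rcases Nat.eq_zero_or_pos c.val with h1 | h1
  · exact absurd ((ZMod.val_eq_zero c).1 h1) h
  · exact h1

/-- `c` is far from `-1` -/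
theorem far_neg_one {c : ZMod l} (h1 : 1 ≤ c.val) (h2 : c.val + 2 < l) :
    -1 ≠ c ∧ -1 ≠ c + 1 ∧ -1 ≠ c - 1 := by
  refine ⟨fun h => ?_, fun h => ?_, fun h => ?_⟩
  · exact ne_neg_one (c := c) (by omega) h.symm
  · have h3 : c + ((2 : ℕ) : ZMod l) = 0 := by
      have h4 : c = -1 - 1 := by rw [h]; ring
      rw [h4]
      push_cast
      ring
    have := Nat.le_of_dvd (by omega) (dvd_of_add c 2 h3)
    omega
  · have h3 : c = 0 := by
      have h4 : c = -1 + 1 := by rw [h]; ring
      rw [h4]
      ring
    rw [h3, ZMod.val_zero] at h1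
    omega

/-- `c` is far from `0` -/
theorem far_zero {c : ZMod l} (h1 : 2 ≤ c.val) (h2 : c.val + 1 < l) :
    0 ≠ c ∧ 0 ≠ c + 1 ∧ 0 ≠ c - 1 := by
  refine ⟨fun h => ?_, fun h => ?_, fun h => ?_⟩
  · rw [← h, ZMod.val_zero] at h1
    omega
  · have h3 : c + ((1 : ℕ) : ZMod l) = 0 := by
      rw [Nat.cast_one]
      exact h.symm
    have := Nat.le_of_dvd (by omega) (dvd_of_add c 1 h3)
    omega
  · have h3 : c = 1 := by
      have h4 : c = 0 + 1 := by rw [h]; ring
      rw [h4, zero_add]
    have h5 : (1 : ZMod l) = ((1 : ℕ) : ZMod l) := by rw [Nat.cast_one]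
    rw [h3, h5, ZMod.val_natCast_of_lt (by omega)] at h1
    omega

end zm

theorem sLF1 (hFAM : S_FAM) (hGEN : S_GEN) (hMRY : S_MRY) : S_LF1 := by
  intro l _ V _ _ T hl G hG hEF r
  obtain ⟨⟨mF1, mF2, mF3, mF4⟩, mE1, mE2, mE3, mE4⟩ := hMRY l V T (by omega)
  have gen := hGEN l V T (by omega) G hEF
  have fam := hFAM (ZMod l) (Module.End ℂ V) G (by rw [ZMod.card]; exact hl)
  have h01 : (0 : ZMod l) ≠ 1 := by
    intro h
    have h1 : ((1 : ℕ) : ZMod l) = 0 := by rw [Nat.cast_one, ← h]
    have := Nat.le_of_dvd (by omega) ((ZMod.natCast_eq_zero_iff 1 l).1 h1)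
    omega
  have h0m : (0 : ZMod l) ≠ -1 := ne_neg_one (by rw [ZMod.val_zero]; omega)
  have hz1 : (-1 : ZMod l) + 1 = 0 := by ring
  have FE : ∀ c c' : ZMod l, c' ≠ c → ∀ s, ⁅T.F c 0, T.E c' s⁆ = 0 := by
    intro c c' h s
    apply lie_comm0
    rw [T.EF, if_neg h]
  have EF : ∀ c c' : ZMod l, c ≠ c' → ∀ s, ⁅T.E c 0, T.F c' s⁆ = 0 := by
    intro c c' h s
    rw [T.EF, if_neg h]
  refine ⟨?_, ?_, ?_⟩
  · refine fam 0 (-1) (T.F (-1) r) h0m ?_ ?_
    · intro z
      rw [hG, T.hF]
      congr 1
      simp only [al, hz1]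
      push_cast
      ring
    · intro a b hab hb ha
      rcases lt_trichotomy a.val b.val with h | h | h
      · refine (gen (T.F (-1) r) a b).1 h fun c _ h2 => ?_
        have hb' := ZMod.val_lt b
        exact EF c (-1) (ne_neg_one (by omega)) r
      · exact absurd (ZMod.val_injective l h) hab
      · refine (gen (T.F (-1) r) a b).2 h fun c h1 h2 => ?_
        have hb' := val_pos_of_ne b hb
        have ha' := val_lt_of_ne a ha
        obtain ⟨f1, f2, f3⟩ := far_neg_one (c := c) (by omega) (by omega)
        exact mF2 c (-1) 0 r f1 f2 f3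
  · refine fam (-1) 0 (T.E (-1) r) h0m.symm ?_ ?_
    · intro z
      rw [hG, T.hE]
      congr 1
      simp only [al, hz1]
    · intro a b hab hb ha
      rcases lt_trichotomy a.val b.val with h | h | h
      · refine (gen (T.E (-1) r) a b).1 h fun c h1 h2 => ?_
        have ha' := val_pos_of_ne a ha
        have hb' := val_lt_of_ne b hb
        obtain ⟨f1, f2, f3⟩ := far_neg_one (c := c) (by omega) (by omega)
        exact mE2 c (-1) 0 r f1 f2 f3
      · exact absurd (ZMod.val_injective l h) hab
      · refine (gen (T.E (-1) r) a b).2 h fun c _ h2 => ?_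
        have ha' := ZMod.val_lt a
        exact FE c (-1) (ne_neg_one (by omega)).symm r
  · refine fam 0 1 (T.E 0 r) h01 ?_ ?_
    · intro z
      rw [hG, T.hE]
      congr 1
      simp only [al, zero_add]
    · intro a b hab hb ha
      have v1 : (1 : ZMod l).val = 1 := by
        have h5 : (1 : ZMod l) = ((1 : ℕ) : ZMod l) := by rw [Nat.cast_one]
        rw [h5, ZMod.val_natCast_of_lt (by omega)]
      have v2 : (2 : ZMod l).val = 2 := by
        have h5 : (2 : ZMod l) = ((2 : ℕ) : ZMod l) := by norm_cast
        rw [h5, ZMod.val_natCast_of_lt (by omega)]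
      -- the far case
      have far : ∀ a b : ZMod l, 2 ≤ a.val → a.val < b.val → ⁅G.e a b, T.E 0 r⁆ = 0 := by
        intro a b h2 h
        refine (gen (T.E 0 r) a b).1 h fun c h1 h3 => ?_
        have hb' := ZMod.val_lt b
        obtain ⟨f1, f2, f3⟩ := far_zero (c := c) (by omega) (by omega)
        exact mE2 c 0 0 r f1 f2 f3
      rcases lt_trichotomy a.val b.val with h | h | h
      · rcases Nat.lt_or_ge a.val 2 with h2 | h2
        · -- `a = 0`
          have ha0 : a = 0 := by
            have h3 : a.val ≠ 1 := by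
              intro h3
              apply ha
              apply ZMod.val_injective l
              rw [h3, v1]
            exact (ZMod.val_eq_zero a).1 (by omega)
          subst ha0
          rw [ZMod.val_zero] at h
          have e01 : G.e 0 1 = T.E 0 0 := by
            have := (hEF 0 h0m).1
            rwa [zero_add] at this
          have c01 : ⁅G.e 0 1, T.E 0 r⁆ = 0 := by
            rw [e01]
            exact mE1 0 0 r
          have c02 : ⁅G.e 0 2, T.E 0 r⁆ = 0 := by
            have e12 : G.e 1 2 = T.E 1 0 := by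
              have h5 := (hEF 1 (ne_neg_one (by rw [v1]; omega))).1
              have h6 : (1 : ZMod l) + 1 = 2 := by ring
              rwa [h6] at h5
            have h02 : (0 : ZMod l) ≠ 2 := by
              intro h5
              have := congrArg ZMod.val h5
              rw [v2, ZMod.val_zero] at this
              omega
            have e02 : G.e 0 2 = ⁅G.e 0 1, G.e 1 2⁆ := by
              rw [G.gl, if_pos rfl, if_neg h02, sub_zero]
            rw [e02, lie_lie, c01, lie_zero, sub_zero, e01, e12, ← lie_skew (T.E 1 0), lie_neg,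
              mE4 0 1 0 r 0 (Or.inl (by ring)), neg_zero]
          rcases Nat.lt_trichotomy b.val 2 with h3 | h3 | h3
          · have hb1 : b = 1 := by
              apply ZMod.val_injective l
              rw [v1]
              omega
            rw [hb1]
            exact c01
          · have hb2 : b = 2 := by
              apply ZMod.val_injective l
              rw [v2]
              omega
            rw [hb2]
            exact c02
          · have e0b : G.e 0 b = ⁅G.e 0 2, G.e 2 b⁆ := by
              rw [G.gl, if_pos rfl, if_neg hb.symm, sub_zero]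
            rw [e0b]
            exact lie_jac c02 (far 2 b (by rw [v2]) (by rw [v2]; exact h3))
        · exact far a b h2 h
      · exact absurd (ZMod.val_injective l h) hab
      · refine (gen (T.E 0 r) a b).2 h fun c h1 _ => ?_
        have hb' := val_pos_of_ne b hb
        refine FE c 0 ?_ r
        intro h5
        rw [← h5, ZMod.val_zero] at h1
        omega

end

end Pool.Agent.Helper49.SQ
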