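import Mathlib
import Pool.Agent.Helper84.SQ.GoalsA

/-!
# One step (packet SQ-STP)
-/

namespace Pool.Agent.Helper49.SQ

open Pool.Agent.Helper84.SQ

/-- The sum of the squares of all subset sums. -/
theorem sq_sum {ι : Type} [DecidableEq ι] (x : ι → ℝ) (T : Finset ι) : ∀ c : ℝ,
    ∑ S ∈ T.powerset, (c + ∑ k ∈ S, x k) ^ 2 =
      2 ^ T.card * ((c + (∑ k ∈ T, x k) / 2) ^ 2 + (∑ k ∈ T, x k ^ 2) / 4) := by
  induction T using Finset.induction_on with
  | empty => intro c; simp
  | insert i T hi ih =>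
    intro c
    rw [Finset.sum_powerset_insert hi, ih c]
    have h2 : ∑ S ∈ T.powerset, (c + ∑ k ∈ insert i S, x k) ^ 2 =
        ∑ S ∈ T.powerset, ((c + x i) + ∑ k ∈ S, x k) ^ 2 := by
      refine Finset.sum_congr rfl fun S hS => ?_
      rw [Finset.sum_insert (fun h => hi (Finset.mem_powerset.1 hS h))]
      ring
    rw [h2, ih (c + x i), Finset.card_insert_of_notMem hi, Finset.sum_insert hi,
      Finset.sum_insert hi]
    ring

/-- The sum of all subset sums. -/
theorem lin_sum {ι : Type} [DecidableEq ι] (x : ι → ℝ) (T : Finset ι) : ∀ c : ℝ,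
    ∑ S ∈ T.powerset, (c + ∑ k ∈ S, x k) = 2 ^ T.card * (c + (∑ k ∈ T, x k) / 2) := by
  induction T using Finset.induction_on with
  | empty => intro c; simp
  | insert i T hi ih =>
    intro c
    rw [Finset.sum_powerset_insert hi, ih c]
    have h2 : ∑ S ∈ T.powerset, (c + ∑ k ∈ insert i S, x k) =
        ∑ S ∈ T.powerset, ((c + x i) + ∑ k ∈ S, x k) := by
      refine Finset.sum_congr rfl fun S hS => ?_
      rw [Finset.sum_insert (fun h => hi (Finset.mem_powerset.1 hS h))]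
      ring
    rw [h2, ih (c + x i), Finset.card_insert_of_notMem hi, Finset.sum_insert hi]
    ring

/-- The sum of `gq` over all subset sums. -/
theorem gq_sum {n N : ℕ} (κ h : Fin n → ℝ) (a : Fin n → ℤ) (g : Fin N → Fin n → ℤ) :
    ∑ S ∈ (Finset.univ : Finset (Fin N)).powerset,
        gq κ h (fun j => a j + ∑ k ∈ S, g k j) =
      2 ^ N * ∑ j, (κ j * (((a j : ℝ) + (∑ k, (g k j : ℝ)) / 2) ^ 2 +
        (∑ k, (g k j : ℝ) ^ 2) / 4) + h j * ((a j : ℝ) + (∑ k, (g k j : ℝ)) / 2)) := by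
  unfold gq
  rw [Finset.sum_comm, Finset.mul_sum]
  refine Finset.sum_congr rfl fun j _ => ?_
  rw [Finset.sum_add_distrib, ← Finset.mul_sum, ← Finset.mul_sum]
  have h1 : ∑ S ∈ (Finset.univ : Finset (Fin N)).powerset,
      ((((a j + ∑ k ∈ S, g k j : ℤ)) : ℝ)) ^ 2 =
      2 ^ N * (((a j : ℝ) + (∑ k, (g k j : ℝ)) / 2) ^ 2 + (∑ k, (g k j : ℝ) ^ 2) / 4) := by
    have := sq_sum (fun k : Fin N => (g k j : ℝ)) Finset.univ (a j : ℝ)
    rw [Finset.card_univ, Fintype.card_fin] at this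
    rw [← this]
    refine Finset.sum_congr rfl fun S _ => ?_
    push_cast
    ring
  have h2 : ∑ S ∈ (Finset.univ : Finset (Fin N)).powerset,
      ((((a j + ∑ k ∈ S, g k j : ℤ)) : ℝ)) =
      2 ^ N * ((a j : ℝ) + (∑ k, (g k j : ℝ)) / 2) := by
    have := lin_sum (fun k : Fin N => (g k j : ℝ)) Finset.univ (a j : ℝ)
    rw [Finset.card_univ, Fintype.card_fin] at this
    rw [← this]
    refine Finset.sum_congr rfl fun S _ => ?_
    push_cast
    ring
  rw [h1, h2]
  ring

/-- The key identity: four times the mean of `gq` over the subset sums. -/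
theorem key {n N : ℕ} (κ h : Fin n → ℝ) (a b : Fin n → ℤ) (g : Fin N → Fin n → ℤ)
    (hb : ∀ j, ∑ k, g k j = b j - a j) :
    4 * ∑ S ∈ (Finset.univ : Finset (Fin N)).powerset,
        gq κ h (fun j => a j + ∑ k ∈ S, g k j) =
      2 ^ N * (∑ k, (gq κ h (fun j => a j + g k j) - gq κ h a) + gq κ h b + 3 * gq κ h a) := by
  rw [gq_sum]
  have hb' : ∀ j, (b j : ℝ) = a j + ∑ k, (g k j : ℝ) := by
    intro j
    have := hb j
    have h2 : ((∑ k, g k j : ℤ) : ℝ) = ((b j - a j : ℤ) : ℝ) := by rw [this]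
    push_cast at h2
    linarith
  have hF : ∑ k, (gq κ h (fun j => a j + g k j) - gq κ h a) =
      ∑ j, (κ j * (2 * a j * (∑ k, (g k j : ℝ)) + ∑ k, (g k j : ℝ) ^ 2) +
        h j * ∑ k, (g k j : ℝ)) := by
    have h1 : ∀ k, gq κ h (fun j => a j + g k j) - gq κ h a =
        ∑ j, (κ j * (2 * a j * (g k j : ℝ) + (g k j : ℝ) ^ 2) + h j * (g k j : ℝ)) := by
      intro k
      unfold gq
      rw [← Finset.sum_sub_distrib]
      refine Finset.sum_congr rfl fun j _ => ?_
      push_cast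
      ring
    rw [Finset.sum_congr rfl fun k _ => h1 k, Finset.sum_comm]
    refine Finset.sum_congr rfl fun j _ => ?_
    rw [Finset.sum_add_distrib, ← Finset.mul_sum, ← Finset.mul_sum, Finset.sum_add_distrib,
      ← Finset.mul_sum]
  rw [hF]
  unfold gq
  rw [Finset.mul_sum (s := (Finset.univ : Finset (Fin n))) (a := (3 : ℝ)),
    ← Finset.sum_add_distrib, ← Finset.sum_add_distrib, mul_left_comm, Finset.mul_sum]
  congr 1
  refine Finset.sum_congr rfl fun j _ => ?_
  rw [hb' j]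
  ring

/-- **STP**. -/
theorem stp (hIdp : IdpStmt) : StpStmt := by
  intro m n N W w a b i0 s κ h Rg hW hN hs ha hbF hbi hR
  obtain ⟨g, hg1, hg2, hg3⟩ := hIdp m n N W w a b i0 s hW hN hs ha hbF hbi
  have hmean : ∑ S ∈ (Finset.univ : Finset (Fin N)).powerset,
      gq κ h (fun j => a j + ∑ k ∈ S, g k j) ≤ 2 ^ N * (gq κ h a + Rg) := by
    have h1 : ∀ S ∈ (Finset.univ : Finset (Fin N)).powerset,
        gq κ h (fun j => a j + ∑ k ∈ S, g k j) ≤ gq κ h a + Rg := by
      intro S _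
      have := hR _ (hg3 S) a ha
      linarith
    refine (Finset.sum_le_card_nsmul _ _ _ h1).trans ?_
    rw [Finset.card_powerset, Finset.card_univ, Fintype.card_fin, nsmul_eq_mul]
    push_cast
    exact le_rfl
  have hkey := key κ h a b g hg2
  have hpos : (0 : ℝ) < 2 ^ N := by positivity
  have hF : ∑ k, (gq κ h (fun j => a j + g k j) - gq κ h a) ≤ 5 * Rg := by
    have h1 : (2 : ℝ) ^ N * (∑ k, (gq κ h (fun j => a j + g k j) - gq κ h a) + gq κ h b +
        3 * gq κ h a) ≤ 2 ^ N * (4 * (gq κ h a + Rg)) := by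
      rw [← hkey]
      nlinarith
    have h2 := le_of_mul_le_mul_left h1 hpos
    have h3 := hR a ha b hbF
    linarith
  have hNpos : (0 : ℝ) < N := by exact_mod_cast hN
  have hne : (Finset.univ : Finset (Fin N)).Nonempty := ⟨⟨0, hN⟩, Finset.mem_univ _⟩
  obtain ⟨k, _, hk⟩ := Finset.exists_le_of_sum_le
    (f := fun k : Fin N => gq κ h (fun j => a j + g k j) - gq κ h a)
    (g := fun _ => 5 * Rg / N) hne (by
      rw [Finset.sum_const, Finset.card_univ, Fintype.card_fin, nsmul_eq_mul]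
      have : (N : ℝ) * (5 * Rg / N) = 5 * Rg := by field_simp
      rw [this]
      exact hF)
  refine ⟨fun j => a j + g k j, ?_, ?_, ?_⟩
  · have := hg3 {k}
    simpa using this
  · show a i0 + g k i0 = a i0 + s
    rw [hg1 k]
  · have h1 : gq κ h (fun j => a j + g k j) - gq κ h a ≤ 5 * Rg / N := hk
    linarith

end Pool.Agent.Helper49.SQ
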